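import Pool.Agent.Helper82.IW.Goals

open Complex MeasureTheory Set Filter Topology
open scoped ContDiff ComplexConjugate

namespace Pool.Agent.Helper71.IW

open Pool.Agent.Helper82.IW

theorem isCompact_Q : IsCompact Q := by
  refine Metric.isCompact_of_isClosed_isBounded ?_ ?_
  · exact IsClosed.reProdIm isClosed_Icc isClosed_Icc
  · exact Bornology.IsBounded.reProdIm (Metric.isBounded_Icc 0 1) (Metric.isBounded_Icc 0 1)

theorem intQ {E : Type*} [NormedAddCommGroup E] {f : ℂ → E} (hf : Continuous f) :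
    IntegrableOn f Q volume :=
  hf.continuousOn.integrableOn_compact isCompact_Q

theorem SP.dif {f : ℂ → ℂ} (h : SP f) : Differentiable ℝ f := h.smooth.differentiable (by simp)

theorem SP.con {f : ℂ → ℂ} (h : SP f) : Continuous f := h.smooth.continuous

theorem SP.mul {f g : ℂ → ℂ} (hf : SP f) (hg : SP g) : SP (fun z => f z * g z) :=
  ⟨hf.smooth.mul hg.smooth, fun z => ⟨by simp only [(hf.per z).1, (hg.per z).1],
    by simp only [(hf.per z).2, (hg.per z).2]⟩⟩

theorem dx_mul {f g : ℂ → ℂ} (hf : Differentiable ℝ f) (hg : Differentiable ℝ g) (z : ℂ) :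
    dx (fun w => f w * g w) z = dx f z * g z + f z * dx g z := by
  have h : HasFDerivAt (fun w => f w * g w) _ z := (hf z).hasFDerivAt.mul (hg z).hasFDerivAt
  unfold dx
  rw [h.fderiv]
  simp [mul_comm, add_comm]

theorem dy_mul {f g : ℂ → ℂ} (hf : Differentiable ℝ f) (hg : Differentiable ℝ g) (z : ℂ) :
    dy (fun w => f w * g w) z = dy f z * g z + f z * dy g z := by
  have h : HasFDerivAt (fun w => f w * g w) _ z := (hf z).hasFDerivAt.mul (hg z).hasFDerivAt
  unfold dy
  rw [h.fderiv]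
  simp [mul_comm, add_comm]

theorem dx_lin {f g h : ℂ → ℂ} (hf : Differentiable ℝ f) (hg : Differentiable ℝ g)
    (hh : Differentiable ℝ h) (c : ℂ) (z : ℂ) :
    dx (fun w => (1 / 2 : ℂ) * (f w - g w + c * h w)) z =
      (1 / 2 : ℂ) * (dx f z - dx g z + c * dx h z) := by
  have h : HasFDerivAt (fun w => (1 / 2 : ℂ) * (f w - g w + c * h w)) _ z :=
    (((hf z).hasFDerivAt.sub (hg z).hasFDerivAt).add
    ((hh z).hasFDerivAt.const_mul c)).const_mul (1 / 2 : ℂ)
  unfold dx
  rw [h.fderiv]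
  simp
  ring

theorem dy_lin {f g h : ℂ → ℂ} (hf : Differentiable ℝ f) (hg : Differentiable ℝ g)
    (hh : Differentiable ℝ h) (c : ℂ) (z : ℂ) :
    dy (fun w => (1 / 2 : ℂ) * (f w - g w + c * h w)) z =
      (1 / 2 : ℂ) * (dy f z - dy g z + c * dy h z) := by
  have h : HasFDerivAt (fun w => (1 / 2 : ℂ) * (f w - g w + c * h w)) _ z :=
    (((hf z).hasFDerivAt.sub (hg z).hasFDerivAt).add
    ((hh z).hasFDerivAt.const_mul c)).const_mul (1 / 2 : ℂ)
  unfold dy
  rw [h.fderiv]
  simp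
  ring

theorem dx_lin2 {f g : ℂ → ℂ} (hf : Differentiable ℝ f) (hg : Differentiable ℝ g) (z : ℂ) :
    dx (fun w => (1 / 2 : ℂ) * (f w + g w)) z = (1 / 2 : ℂ) * (dx f z + dx g z) := by
  have h : HasFDerivAt (fun w => (1 / 2 : ℂ) * (f w + g w)) _ z :=
    ((hf z).hasFDerivAt.add (hg z).hasFDerivAt).const_mul (1 / 2 : ℂ)
  unfold dx
  rw [h.fderiv]
  simp
  ring

theorem dy_lin2 {f g : ℂ → ℂ} (hf : Differentiable ℝ f) (hg : Differentiable ℝ g) (z : ℂ) :
    dy (fun w => (1 / 2 : ℂ) * (f w + g w)) z = (1 / 2 : ℂ) * (dy f z + dy g z) := by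
  have h : HasFDerivAt (fun w => (1 / 2 : ℂ) * (f w + g w)) _ z :=
    ((hf z).hasFDerivAt.add (hg z).hasFDerivAt).const_mul (1 / 2 : ℂ)
  unfold dy
  rw [h.fderiv]
  simp
  ring

/-- `∫ (T̄_x W_y - T̄_y W_x) = 0`. -/
theorem int_jac (hINT : S_INT) (hSPB : S_SPB) {T W : ℂ → ℂ} (hT : SP T) (hW : SP W) :
    ∫ z in Q, (conj (dx T z) * dy W z - conj (dy T z) * dx W z) = 0 := by
  obtain ⟨hTx, hTy, -, -, hTc, -, hTcx, hTcy⟩ := hSPB.1 T hT
  obtain ⟨hWx, hWy, -, -, -, hWc, -, -⟩ := hSPB.1 W hW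
  have h1 := hINT.1 (fun z => conj (T z) * dy W z) ((SP.mul hTc hWy).smooth.of_le (by simp))
    (SP.mul hTc hWy).per
  have h2 := hINT.2.1 (fun z => conj (T z) * dx W z) ((SP.mul hTc hWx).smooth.of_le (by simp))
    (SP.mul hTc hWx).per
  have e : ∀ z, conj (dx T z) * dy W z - conj (dy T z) * dx W z =
      dx (fun z => conj (T z) * dy W z) z - dy (fun z => conj (T z) * dx W z) z := by
    intro z
    rw [dx_mul (SP.dif hTc) (SP.dif hWy), dy_mul (SP.dif hTc) (SP.dif hWx), hTcx z, hTcy z, hWc z]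
    ring
  simp only [e]
  have i1 : SP (dx (fun z => conj (T z) * dy W z)) := (hSPB.1 _ (SP.mul hTc hWy)).1
  have i2 : SP (dy (fun z => conj (T z) * dx W z)) := (hSPB.1 _ (SP.mul hTc hWx)).2.1
  rw [integral_sub (intQ (SP.con i1)) (intQ (SP.con i2)), h1, h2, sub_zero]

/-- `D' (zb W) = D (hl W)`. -/
theorem comm_id (hSPB : S_SPB) {W : ℂ → ℂ} (hW : SP W) (z : ℂ) :
    dx (zb W) z - I * dy (zb W) z = dx (hl W) z + I * dy (hl W) z := by
  obtain ⟨hWx, hWy, -, -, -, hWc, -, -⟩ := hSPB.1 W hW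
  obtain ⟨hWxx, hWxy, -, -, -, hWxc, -, -⟩ := hSPB.1 _ hWx
  obtain ⟨hWyx, hWyy, -, -, -, hWyc, -, -⟩ := hSPB.1 _ hWy
  have e1 : dx (zb W) z = (1 / 2 : ℂ) * (dx (dx (dx W)) z - dx (dy (dy W)) z +
      2 * I * dx (dx (dy W)) z) := dx_lin (SP.dif hWxx) (SP.dif hWyy) (SP.dif hWyx) (2 * I) z
  have e2 : dy (zb W) z = (1 / 2 : ℂ) * (dy (dx (dx W)) z - dy (dy (dy W)) z +
      2 * I * dy (dx (dy W)) z) := dy_lin (SP.dif hWxx) (SP.dif hWyy) (SP.dif hWyx) (2 * I) z
  have e3 : dx (hl W) z = (1 / 2 : ℂ) * (dx (dx (dx W)) z + dx (dy (dy W)) z) :=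
    dx_lin2 (SP.dif hWxx) (SP.dif hWyy) z
  have e4 : dy (hl W) z = (1 / 2 : ℂ) * (dy (dx (dx W)) z + dy (dy (dy W)) z) :=
    dy_lin2 (SP.dif hWxx) (SP.dif hWyy) z
  have hxy : dx (dy W) = dy (dx W) := funext hWc
  have e5 : dx (dx (dy W)) z = dy (dx (dx W)) z := by rw [hxy]; exact hWxc z
  have e6 : dy (dx (dy W)) z = dx (dy (dy W)) z := (hWyc z).symm
  rw [e1, e2, e3, e4, e5, e6]
  linear_combination (-(dx (dy (dy W)) z)) * I_sq

theorem norm_sq_re (a : ℂ) : (conj a * a).re = ‖a‖ ^ 2 := by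
  rw [← Complex.normSq_eq_conj_mul_self, ofReal_re, Complex.normSq_eq_norm_sq]

theorem PL (hINT : S_INT) (hSPB : S_SPB) (hIB : S_IB) : Pool.Agent.Helper82.IW.S_PL := by
  intro W hW
  obtain ⟨hWx, hWy, hhl, hzb, hWcj, hWc, -, -⟩ := hSPB.1 W hW
  obtain ⟨hTx, hTy, -, -, -, -, -, -⟩ := hSPB.1 _ hhl
  have cW := SP.con hW
  have cx := SP.con hWx
  have cy := SP.con hWy
  have ch := SP.con hhl
  have cz := SP.con hzb
  have cTx := SP.con hTx
  have cTy := SP.con hTy
  have cre : Continuous (fun z => (conj (W z) * (2 * hl W z)).re) :=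
    Complex.continuous_re.comp ((Complex.continuous_conj.comp cW).mul (continuous_const.mul ch))
  have creκ : ∀ κ : ℝ, Continuous (fun z => κ * (conj (W z) * (2 * hl W z)).re) := fun κ =>
    continuous_const.mul cre
  -- integration by parts for `W` with itself
  have key : ∫ z in Q, (conj (W z) * (2 * hl W z)).re = - ∫ z in Q, gr W z := by
    rw [hIB.1 W W hW hW]
    congr 1
    refine integral_congr_ae (Filter.Eventually.of_forall fun z => ?_)
    simp only [add_re, norm_sq_re, gr]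
  have hgr : 0 ≤ ∫ z in Q, gr W z := integral_nonneg (fun z => by unfold gr; positivity)
  have igr : IntegrableOn (gr W) Q volume := intQ (by unfold gr; fun_prop)
  refine ⟨?_, ?_, ?_⟩
  · have h1 := hIB.1 (hl W) W hhl hW
    have h2 := hIB.2 (zb W) W hzb hW
    have h1' : ∫ z in Q, (conj (hl W z) * (2 * hl W z)).re = 2 * ∫ z in Q, ‖hl W z‖ ^ 2 := by
      rw [← integral_const_mul]
      refine integral_congr_ae (Filter.Eventually.of_forall fun z => ?_)
      show (conj (hl W z) * (2 * hl W z)).re = 2 * ‖hl W z‖ ^ 2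
      rw [← norm_sq_re, show conj (hl W z) * (2 * hl W z) = 2 * (conj (hl W z) * hl W z) by ring]
      simp
    have h2' : ∫ z in Q, (conj (zb W z) * zb W z).re = ∫ z in Q, ‖zb W z‖ ^ 2 := by
      refine integral_congr_ae (Filter.Eventually.of_forall fun z => ?_)
      exact norm_sq_re _
    rw [h1'] at h1
    rw [h2'] at h2
    have h3 : ∫ z in Q, ((conj (dx (zb W) z) + I * conj (dy (zb W) z)) * (dx W z + I * dy W z)).re =
        (∫ z in Q, (conj (dx (hl W) z) * dx W z + conj (dy (hl W) z) * dy W z).re) +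
        ∫ z in Q, (I * (conj (dx (hl W) z) * dy W z - conj (dy (hl W) z) * dx W z)).re := by
      rw [← integral_add (intQ (by fun_prop)) (intQ (by fun_prop))]
      refine integral_congr_ae (Filter.Eventually.of_forall fun z => ?_)
      have := congrArg conj (comm_id hSPB hW z)
      simp only [map_add, map_sub, map_mul, conj_I] at this
      have e : conj (dx (zb W) z) + I * conj (dy (zb W) z) =
          conj (dx (hl W) z) - I * conj (dy (hl W) z) := by linear_combination this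
      show ((conj (dx (zb W) z) + I * conj (dy (zb W) z)) * (dx W z + I * dy W z)).re = _ + _
      rw [e, ← add_re]
      congr 1
      linear_combination (-(conj (dy (hl W) z) * dy W z)) * I_sq
    have h4 : ∫ z in Q, (I * (conj (dx (hl W) z) * dy W z - conj (dy (hl W) z) * dx W z)).re = 0 := by
      have i : Integrable (fun z => I * (conj (dx (hl W) z) * dy W z - conj (dy (hl W) z) * dx W z))
          (volume.restrict Q) := intQ (by fun_prop)
      have := integral_re (𝕜 := ℂ) i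
      simp only [RCLike.re_eq_complex_re] at this
      rw [this, integral_const_mul, int_jac hINT hSPB hhl hW]
      simp
    rw [h3, h4, add_zero, ← h1] at h2
    linarith
  · intro κ hκ
    have e : ∀ z, ‖hl W z - (κ : ℂ) * W z‖ ^ 2 =
        ‖hl W z‖ ^ 2 + κ ^ 2 * ‖W z‖ ^ 2 - κ * (conj (W z) * (2 * hl W z)).re := by
      intro z
      rw [← norm_sq_re, ← norm_sq_re, ← norm_sq_re]
      simp only [map_sub, map_mul, conj_ofReal, mul_re, mul_im, sub_re, sub_im, conj_re, conj_im,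
        ofReal_re, ofReal_im]
      norm_num
      ring
    simp only [e]
    rw [integral_sub (intQ (by fun_prop)) (intQ (creκ κ)),
      integral_add (intQ (by fun_prop)) (intQ (by fun_prop)), integral_const_mul, integral_const_mul, key]
    nlinarith
  · have : ∫ z in Q, gr W z = ∫ z in Q, -(conj (W z) * (2 * hl W z)).re := by
      rw [integral_neg, key, neg_neg]
    rw [this, ← integral_add (intQ (by fun_prop)) (intQ (by fun_prop))]
    refine integral_mono (intQ cre.neg) (intQ (by fun_prop)) (fun z => ?_)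
    show -(conj (W z) * (2 * hl W z)).re ≤ ‖W z‖ ^ 2 + ‖hl W z‖ ^ 2
    have h1 : -(conj (W z) * (2 * hl W z)).re ≤ ‖conj (W z) * (2 * hl W z)‖ := by
      have := Complex.abs_re_le_norm (conj (W z) * (2 * hl W z))
      linarith [neg_abs_le (conj (W z) * (2 * hl W z)).re]
    have h2 : ‖conj (W z) * (2 * hl W z)‖ = 2 * (‖W z‖ * ‖hl W z‖) := by
      rw [norm_mul, norm_mul, RCLike.norm_conj]
      norm_num
      ring
    nlinarith [sq_nonneg (‖W z‖ - ‖hl W z‖)]

end Pool.Agent.Helper71.IW
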